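import Mathlib

/-!
# Means of a continuous periodic function along a line

`Φ` continuous and `ℤ^ι`-periodic, `h` any vector: the means of `Φ (R h)` over `[0, X]` and over `[X, 2 X]` converge.
-/

set_option autoImplicit false

namespace Pool.Agent.Helper64.WC

open Filter Topology MeasureTheory Set

variable {ι : Type*} [Fintype ι]

omit [Fintype ι] in
/-- a periodic function is a function on the torus -/
theorem exists_desc {Φ : (ι → ℝ) → ℝ} (hΦ : Continuous Φ) (hper : ∀ y (k : ι → ℤ), Φ (fun i => y i + k i) = Φ y) :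
    ∃ F : C(UnitAddTorus ι, ℂ), ∀ y : ι → ℝ, F (fun i => (y i : UnitAddCircle)) = (Φ y : ℂ) := by
  have hq : IsOpenQuotientMap (Pi.map fun _ : ι => ((↑) : ℝ → UnitAddCircle)) :=
    IsOpenQuotientMap.piMap fun _ => QuotientAddGroup.isOpenQuotientMap_mk
  have key : ∀ y : ι → ℝ, Φ (Function.surjInv hq.surjective (Pi.map (fun _ : ι => ((↑) : ℝ → UnitAddCircle)) y)) = Φ y := by
    intro y
    set z := Function.surjInv hq.surjective (Pi.map (fun _ : ι => ((↑) : ℝ → UnitAddCircle)) y) with hz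
    have h1 : Pi.map (fun _ : ι => ((↑) : ℝ → UnitAddCircle)) z = Pi.map (fun _ : ι => ((↑) : ℝ → UnitAddCircle)) y :=
      Function.surjInv_eq hq.surjective _
    have h2 : ∀ i, ∃ k : ℤ, z i = y i + k := by
      intro i
      have h3 : ((z i : ℝ) : UnitAddCircle) = ((y i : ℝ) : UnitAddCircle) := congrFun h1 i
      have h4 : ((z i - y i : ℝ) : UnitAddCircle) = 0 := by
        rw [AddCircle.coe_sub, h3, sub_self]
      obtain ⟨k, hk⟩ := (AddCircle.coe_eq_zero_iff (1 : ℝ)).1 h4
      refine ⟨k, ?_⟩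
      rw [zsmul_eq_mul, mul_one] at hk
      linarith
    choose k hk using h2
    have h5 : z = fun i => y i + k i := funext hk
    rw [h5, hper]
  refine ⟨⟨fun x => ((Φ (Function.surjInv hq.surjective x) : ℝ) : ℂ), ?_⟩, fun y => ?_⟩
  · rw [hq.isQuotientMap.continuous_iff]
    have : (fun x => ((Φ (Function.surjInv hq.surjective x) : ℝ) : ℂ)) ∘ (Pi.map fun _ : ι => ((↑) : ℝ → UnitAddCircle)) =
        fun y => ((Φ y : ℝ) : ℂ) := by
      funext y
      change ((Φ (Function.surjInv hq.surjective (Pi.map (fun _ : ι => ((↑) : ℝ → UnitAddCircle)) y)) : ℝ) : ℂ) = _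
      rw [key y]
    rw [this]
    exact Complex.continuous_ofReal.comp hΦ
  · change ((Φ (Function.surjInv hq.surjective (Pi.map (fun _ : ι => ((↑) : ℝ → UnitAddCircle)) y)) : ℝ) : ℂ) = _
    rw [key y]

/-- the line -/
noncomputable def ln (h : ι → ℝ) (R : ℝ) : UnitAddTorus ι := fun i => ((R * h i : ℝ) : UnitAddCircle)

omit [Fintype ι] in
theorem ln_cont (h : ι → ℝ) : Continuous (ln h) := by
  unfold ln
  refine continuous_pi fun i => ?_
  exact (AddCircle.continuous_mk' 1).comp (continuous_id.mul continuous_const)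

/-- the mean -/
noncomputable def mn (h : ι → ℝ) (F : C(UnitAddTorus ι, ℂ)) (X : ℝ) : ℂ := (∫ R in (0 : ℝ)..X, F (ln h R)) / X

omit [Fintype ι] in
theorem mn_int (h : ι → ℝ) (F : C(UnitAddTorus ι, ℂ)) (a b : ℝ) : IntervalIntegrable (fun R => F (ln h R)) volume a b :=
  (F.continuous.comp (ln_cont h)).intervalIntegrable a b

theorem mn_char (h : ι → ℝ) (n : ι → ℤ) : ∃ L : ℂ, Tendsto (mn h (UnitAddTorus.mFourier n)) atTop (𝓝 L) := by
  have h1 : ∀ R : ℝ, UnitAddTorus.mFourier n (ln h R) = Complex.exp ((2 * Real.pi * Complex.I * ∑ i, (n i : ℂ) * h i) * R) := by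
    intro R
    unfold UnitAddTorus.mFourier ln
    simp only [ContinuousMap.coe_mk, fourier_coe_apply]
    rw [← Complex.exp_sum]
    congr 1
    rw [Finset.mul_sum, Finset.sum_mul]
    refine Finset.sum_congr rfl fun i _ => ?_
    push_cast
    ring
  generalize (2 * Real.pi * Complex.I * ∑ i, (n i : ℂ) * h i) = c at h1
  by_cases hc : c = 0
  · refine ⟨1, ?_⟩
    refine Tendsto.congr' ?_ tendsto_const_nhds
    filter_upwards [eventually_gt_atTop 0] with X hX
    unfold mn
    simp only [h1, hc, zero_mul, Complex.exp_zero]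
    rw [intervalIntegral.integral_const, sub_zero, Complex.real_smul, mul_one, div_self]
    exact_mod_cast hX.ne'
  · refine ⟨0, ?_⟩
    have hre : ∀ R : ℝ, ‖Complex.exp (c * R)‖ = 1 := by
      intro R
      rw [← h1 R]
      unfold UnitAddTorus.mFourier
      simp only [ContinuousMap.coe_mk, fourier_apply, norm_prod, Circle.norm_coe, Finset.prod_const_one]
    rw [tendsto_zero_iff_norm_tendsto_zero]
    have h2 : Tendsto (fun X : ℝ => 2 / ‖c‖ / X) atTop (𝓝 0) := tendsto_const_nhds.div_atTop tendsto_id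
    refine squeeze_zero' (Eventually.of_forall fun X => norm_nonneg _) ?_ h2
    filter_upwards [eventually_gt_atTop 0] with X hX
    unfold mn
    simp only [h1]
    rw [integral_exp_mul_complex hc, norm_div, norm_div]
    have h3 : ‖Complex.exp (c * X) - Complex.exp (c * (0 : ℝ))‖ ≤ 2 := by
      refine (norm_sub_le _ _).trans ?_
      rw [hre, hre]
      norm_num
    have h4 : ‖(X : ℂ)‖ = X := by
      rw [Complex.norm_real, Real.norm_of_nonneg hX.le]
    rw [h4]
    gcongr

/-- the mean of every continuous function on the torus along the line -/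
theorem mn_conv (h : ι → ℝ) (F : C(UnitAddTorus ι, ℂ)) : ∃ L : ℂ, Tendsto (mn h F) atTop (𝓝 L) := by
  have hspan : ∀ G ∈ Submodule.span ℂ (range (UnitAddTorus.mFourier (d := ι))), ∃ L : ℂ, Tendsto (mn h G) atTop (𝓝 L) := by
    intro G hG
    induction hG using Submodule.span_induction with
    | mem x hx =>
      obtain ⟨n, rfl⟩ := hx
      exact mn_char h n
    | zero =>
      refine ⟨0, ?_⟩
      have : mn h (0 : C(UnitAddTorus ι, ℂ)) = fun _ => 0 := by
        funext X
        simp [mn]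
      rw [this]
      exact tendsto_const_nhds
    | add x y _ _ hx hy =>
      obtain ⟨L, hL⟩ := hx
      obtain ⟨L', hL'⟩ := hy
      refine ⟨L + L', ?_⟩
      have : mn h (x + y) = fun X => mn h x X + mn h y X := by
        funext X
        unfold mn
        rw [← add_div, ← intervalIntegral.integral_add (mn_int h x _ _) (mn_int h y _ _)]
        rfl
      rw [this]
      exact hL.add hL'
    | smul a x _ hx =>
      obtain ⟨L, hL⟩ := hx
      refine ⟨a * L, ?_⟩
      have : mn h (a • x) = fun X => a * mn h x X := by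
        funext X
        unfold mn
        rw [← mul_div_assoc, ← intervalIntegral.integral_const_mul]
        rfl
      rw [this]
      exact hL.const_mul a
  have hclose : ∀ ε > 0, ∃ L : ℂ, ∀ᶠ X in atTop, dist (mn h F X) L < ε := by
    intro ε hε
    have hF : F ∈ closure ((Submodule.span ℂ (range (UnitAddTorus.mFourier (d := ι))) : Submodule ℂ C(UnitAddTorus ι, ℂ)) : Set C(UnitAddTorus ι, ℂ)) := by
      rw [← Submodule.topologicalClosure_coe, UnitAddTorus.span_mFourier_closure_eq_top]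
      trivial
    obtain ⟨G, hG, hFG⟩ := Metric.mem_closure_iff.1 hF (ε / 2) (by positivity)
    obtain ⟨L, hL⟩ := hspan G hG
    refine ⟨L, ?_⟩
    filter_upwards [Metric.tendsto_nhds.1 hL (ε / 2) (by positivity), eventually_gt_atTop 0] with X hX hX0
    have h1 : dist (mn h F X) (mn h G X) ≤ dist F G := by
      rw [dist_eq_norm]
      unfold mn
      rw [← sub_div, ← intervalIntegral.integral_sub (mn_int h F _ _) (mn_int h G _ _), norm_div]
      have h4 : ‖(X : ℂ)‖ = X := by
        rw [Complex.norm_real, Real.norm_of_nonneg hX0.le]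
      rw [h4, div_le_iff₀ hX0]
      have h5 := intervalIntegral.norm_integral_le_of_norm_le_const (a := (0 : ℝ)) (b := X) (C := dist F G)
        (f := fun R => F (ln h R) - G (ln h R)) (fun R _ => by
          rw [← dist_eq_norm]
          exact ContinuousMap.dist_apply_le_dist _)
      rwa [sub_zero, abs_of_pos hX0] at h5
    calc dist (mn h F X) L ≤ dist (mn h F X) (mn h G X) + dist (mn h G X) L := dist_triangle _ _ _
      _ < ε := by linarith
  have hc : Cauchy (map (mn h F) atTop) := by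
    rw [Metric.cauchy_iff]
    refine ⟨inferInstance, fun ε hε => ?_⟩
    obtain ⟨L, hL⟩ := hclose (ε / 2) (by positivity)
    refine ⟨{z | dist z L < ε / 2}, hL, fun x hx y hy => ?_⟩
    change dist x L < ε / 2 at hx
    change dist y L < ε / 2 at hy
    calc dist x y ≤ dist x L + dist y L := dist_triangle_right _ _ _
      _ < ε := by linarith
  obtain ⟨L, hL⟩ := CompleteSpace.complete hc
  exact ⟨L, hL⟩

/-- the means over `[0, X]` -/
theorem torus_mean0 {Φ : (ι → ℝ) → ℝ} (hΦ : Continuous Φ) (hper : ∀ y (k : ι → ℤ), Φ (fun i => y i + k i) = Φ y) (h : ι → ℝ) :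
    ∃ L : ℝ, Tendsto (fun X : ℝ => (∫ R in (0 : ℝ)..X, Φ (fun i => R * h i)) / X) atTop (𝓝 L) := by
  obtain ⟨F, hF⟩ := exists_desc hΦ hper
  obtain ⟨L, hL⟩ := mn_conv h F
  refine ⟨L.re, ?_⟩
  have h1 : ∀ X : ℝ, (mn h F X).re = (∫ R in (0 : ℝ)..X, Φ (fun i => R * h i)) / X := by
    intro X
    have h2 : mn h F X = (((∫ R in (0 : ℝ)..X, Φ (fun i => R * h i)) / X : ℝ) : ℂ) := by
      unfold mn ln
      simp only [hF]
      rw [intervalIntegral.integral_ofReal]
      push_cast
      rfl
    rw [h2, Complex.ofReal_re]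
  exact ((Complex.continuous_re.tendsto L).comp hL).congr h1

/-- the means over `[X, 2 X]` -/
theorem torus_mean2 {Φ : (ι → ℝ) → ℝ} (hΦ : Continuous Φ) (hper : ∀ y (k : ι → ℤ), Φ (fun i => y i + k i) = Φ y) (h : ι → ℝ) :
    ∃ L : ℝ, Tendsto (fun X : ℝ => (∫ R in (0 : ℝ)..X, Φ (fun i => R * h i)) / X) atTop (𝓝 L) ∧
      Tendsto (fun X : ℝ => (∫ R in X..(2 * X), Φ (fun i => R * h i)) / X) atTop (𝓝 L) := by
  obtain ⟨L, hL⟩ := torus_mean0 hΦ hper h
  refine ⟨L, hL, ?_⟩
  have h2 : Tendsto (fun X : ℝ => 2 * X) atTop atTop := tendsto_id.const_mul_atTop (by norm_num)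
  have h3 := ((hL.comp h2).const_mul 2).sub hL
  have h4 : (2 : ℝ) * L - L = L := by ring
  rw [h4] at h3
  refine h3.congr' ?_
  filter_upwards [eventually_gt_atTop 0] with X hX
  have hi : ∀ a b : ℝ, IntervalIntegrable (fun R : ℝ => Φ (fun i => R * h i)) volume a b := fun a b =>
    (hΦ.comp (continuous_pi fun i => continuous_id.mul continuous_const)).intervalIntegrable a b
  have h5 := intervalIntegral.integral_add_adjacent_intervals (hi 0 X) (hi X (2 * X))
  simp only [Function.comp]
  rw [← h5]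
  field_simp
  ring

/-- P1 -/
theorem torus_mean {ι : Type} [Fintype ι] (h : ι → ℝ) (Φ : (ι → ℝ) → ℝ) (hΦ : Continuous Φ) (hper : ∀ (y : ι → ℝ) (z : ι → ℤ), Φ (fun i => y i + z i) = Φ y) :
    ∃ m : ℝ, ∀ ε : ℝ, 0 < ε → ∃ X₀ : ℝ, 1 ≤ X₀ ∧ ∀ X : ℝ, X₀ ≤ X → |X⁻¹ * (∫ R in Icc X (2 * X), Φ (fun i => R * h i)) - m| ≤ ε := by
  obtain ⟨L, -, hL⟩ := torus_mean2 hΦ hper h
  refine ⟨L, fun ε hε => ?_⟩
  obtain ⟨X₀, hX₀⟩ := eventually_atTop.1 (Metric.tendsto_nhds.1 hL ε hε)
  refine ⟨max 1 X₀, le_max_left _ _, fun X hX => ?_⟩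
  have h0 : (0 : ℝ) < X := lt_of_lt_of_le one_pos ((le_max_left _ _).trans hX)
  have h1 := hX₀ X ((le_max_right _ _).trans hX)
  rw [Real.dist_eq, intervalIntegral.integral_of_le (by linarith), ← integral_Icc_eq_integral_Ioc, div_eq_inv_mul] at h1
  exact h1.le

end Pool.Agent.Helper64.WC
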